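import Pool.Agent.W837.GB.Defs

/-!
# Project GB: the basis matrices
-/

set_option autoImplicit false

open MeasureTheory ProbabilityTheory Filter Topology
open scoped NNReal Matrix ComplexOrder

namespace Pool.Agent.W475.GB

open Pool.Agent.W837.GB

/-- `(1 + i) / 2` -/
noncomputable def cc : ℂ := (1 + Complex.I) / 2

/-- `(1 - i) / 2` -/
noncomputable def cb : ℂ := (1 - Complex.I) / 2

theorem cc_sq : cc * cc + cb * cb = 0 := by
  unfold cc cb
  linear_combination (1 / 2 : ℂ) * Complex.I_sq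

theorem cc_cb : cc * cb + cb * cc = 1 := by
  unfold cc cb
  linear_combination (-1 / 2 : ℂ) * Complex.I_sq

theorem norm_cc : ‖cc‖ ^ 2 = 1 / 2 := by
  rw [← Complex.normSq_eq_norm_sq]
  unfold cc
  simp [Complex.normSq_apply]
  norm_num

theorem norm_cb : ‖cb‖ ^ 2 = 1 / 2 := by
  rw [← Complex.normSq_eq_norm_sq]
  unfold cb
  simp [Complex.normSq_apply]
  norm_num

theorem ind_and (p q : Prop) [Decidable p] [Decidable q] :
    (((if p ∧ q then (1 : ℝ) else 0) : ℝ) : ℂ) = (if p then 1 else 0) * (if q then 1 else 0) := by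
  by_cases hp : p <;> by_cases hq : q <;> simp [hp, hq]

section

variable {κ : Type} [DecidableEq κ]

theorem Eb_apply (k l x y : κ) : Eb k l x y =
    cc * (if x = k then 1 else 0) * (if y = l then 1 else 0) +
      cb * (if y = k then 1 else 0) * (if x = l then 1 else 0) := by
  unfold Eb Hm cc cb
  have e1 := ind_and (x = k) (y = l)
  have e2 := ind_and (y = k) (x = l)
  push_cast at e1 e2 ⊢
  rw [e1, e2]
  ring

variable [Fintype κ]

/-- contraction with a basis matrix -/
theorem contr (k l : κ) (Z : κ → κ → ℂ) :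
    ∑ x, ∑ y, Eb k l x y * Z x y = cc * Z k l + cb * Z l k := by
  simp only [Eb_apply, add_mul, Finset.sum_add_distrib]
  congr 1
  · rw [Finset.sum_eq_single k, Finset.sum_eq_single l]
    · simp
    · intro y _ hy; simp [hy]
    · intro h; exact absurd (Finset.mem_univ _) h
    · intro x _ hx; simp [hx]
    · intro h; exact absurd (Finset.mem_univ _) h
  · rw [Finset.sum_eq_single l, Finset.sum_eq_single k]
    · simp
    · intro y _ hy; simp [hy]
    · intro h; exact absurd (Finset.mem_univ _) h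
    · intro x _ hx; simp [hx]
    · intro h; exact absurd (Finset.mem_univ _) h

theorem Hm_herm (g : κ → κ → ℝ) : (Hm g).IsHermitian := by
  ext x y
  unfold Hm
  simp only [Matrix.conjTranspose_apply, RCLike.star_def, map_add, map_mul, Complex.conj_ofReal,
    Complex.conj_I]
  push_cast
  ring

theorem Hm_sum (g : κ → κ → ℝ) : Hm g = ∑ k, ∑ l, ((g k l : ℝ) : ℂ) • Eb k l := by
  ext x y
  simp only [Matrix.sum_apply, Matrix.smul_apply, smul_eq_mul]
  have h1 : ∀ k l, ((g k l : ℝ) : ℂ) * Eb k l x y = Eb x y k l * ((g k l : ℝ) : ℂ) ∨ True :=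
    fun _ _ => Or.inr trivial
  simp only [Eb_apply, mul_add, Finset.sum_add_distrib]
  have e1 : ∑ k, ∑ l, ((g k l : ℝ) : ℂ) * (cc * (if x = k then 1 else 0) *
      (if y = l then 1 else 0)) = cc * g x y := by
    rw [Finset.sum_eq_single x, Finset.sum_eq_single y]
    · simp; ring
    · intro l _ hl; simp [Ne.symm hl]
    · intro h; exact absurd (Finset.mem_univ _) h
    · intro k _ hk; simp [Ne.symm hk]
    · intro h; exact absurd (Finset.mem_univ _) h
  have e2 : ∑ k, ∑ l, ((g k l : ℝ) : ℂ) * (cb * (if y = k then 1 else 0) *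
      (if x = l then 1 else 0)) = cb * g y x := by
    rw [Finset.sum_eq_single y, Finset.sum_eq_single x]
    · simp; ring
    · intro l _ hl; simp [Ne.symm hl]
    · intro h; exact absurd (Finset.mem_univ _) h
    · intro k _ hk; simp [Ne.symm hk]
    · intro h; exact absurd (Finset.mem_univ _) h
  rw [e1, e2]
  unfold Hm cc cb
  push_cast
  ring

theorem EbTEb (T : Matrix κ κ ℂ) :
    ∑ k, ∑ l, Eb k l * T * Eb k l = T.trace • (1 : Matrix κ κ ℂ) := by
  ext x y
  simp only [Matrix.sum_apply, Matrix.smul_apply, smul_eq_mul]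
  have h1 : ∀ k l, (Eb k l * T * Eb k l) x y =
      cc * (Eb k l * T) x k * (if y = l then 1 else 0) +
        cb * (Eb k l * T) x l * (if y = k then 1 else 0) := by
    intro k l
    rw [Matrix.mul_apply]
    simp only [Eb_apply k l _ y, mul_add, Finset.sum_add_distrib]
    congr 1
    · rw [Finset.sum_eq_single k]
      · simp; ring
      · intro t _ ht; simp [ht]
      · intro h; exact absurd (Finset.mem_univ _) h
    · rw [Finset.sum_eq_single l]
      · simp; ring
      · intro t _ ht; simp [ht]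
      · intro h; exact absurd (Finset.mem_univ _) h
  have h2 : ∀ k l t, (Eb k l * T) x t = cc * (if x = k then 1 else 0) * T l t +
      cb * (if x = l then 1 else 0) * T k t := by
    intro k l t
    rw [Matrix.mul_apply]
    simp only [Eb_apply k l x, add_mul, Finset.sum_add_distrib]
    congr 1
    · rw [Finset.sum_eq_single l]
      · simp
      · intro s _ hs; simp [hs]
      · intro h; exact absurd (Finset.mem_univ _) h
    · rw [Finset.sum_eq_single k]
      · simp
      · intro s _ hs; simp [hs]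
      · intro h; exact absurd (Finset.mem_univ _) h
  simp only [h1, h2]
  have h3 : ∑ k, ∑ l, (cc * (cc * (if x = k then 1 else 0) * T l k +
      cb * (if x = l then 1 else 0) * T k k) * (if y = l then 1 else 0) +
        cb * (cc * (if x = k then 1 else 0) * T l l +
      cb * (if x = l then 1 else 0) * T k l) * (if y = k then 1 else 0)) =
      cc * cc * T y x + cc * cb * ((if x = y then 1 else 0) * ∑ k, T k k) +
        (cb * cc * ((if x = y then 1 else 0) * ∑ l, T l l) + cb * cb * T y x) := by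
    simp only [Finset.sum_add_distrib]
    have f1 : ∑ k, ∑ l, cc * (cc * (if x = k then (1 : ℂ) else 0) * T l k +
        cb * (if x = l then 1 else 0) * T k k) * (if y = l then 1 else 0) =
        cc * cc * T y x + cc * cb * ((if x = y then 1 else 0) * ∑ k, T k k) := by
      have g1 : ∀ k, ∑ l, cc * (cc * (if x = k then (1 : ℂ) else 0) * T l k +
          cb * (if x = l then 1 else 0) * T k k) * (if y = l then 1 else 0) =
          cc * cc * ((if x = k then 1 else 0) * T y k) +
            cc * cb * ((if x = y then 1 else 0) * T k k) := by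
        intro k
        rw [Finset.sum_eq_single y]
        · simp only [if_true]; ring
        · intro l _ hl; simp [Ne.symm hl]
        · intro h; exact absurd (Finset.mem_univ _) h
      simp only [g1, Finset.sum_add_distrib, ← Finset.mul_sum]
      congr 2
      rw [Finset.sum_eq_single x]
      · simp
      · intro k _ hk; simp [Ne.symm hk]
      · intro h; exact absurd (Finset.mem_univ _) h
    have f2 : ∑ k, ∑ l, cb * (cc * (if x = k then (1 : ℂ) else 0) * T l l +
        cb * (if x = l then 1 else 0) * T k l) * (if y = k then 1 else 0) =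
        cb * cc * ((if x = y then 1 else 0) * ∑ l, T l l) + cb * cb * T y x := by
      rw [Finset.sum_comm]
      have g1 : ∀ l, ∑ k, cb * (cc * (if x = k then (1 : ℂ) else 0) * T l l +
          cb * (if x = l then 1 else 0) * T k l) * (if y = k then 1 else 0) =
          cb * cc * ((if x = y then 1 else 0) * T l l) +
            cb * cb * ((if x = l then 1 else 0) * T y l) := by
        intro l
        rw [Finset.sum_eq_single y]
        · simp only [if_true]; ring
        · intro k _ hk; simp [Ne.symm hk]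
        · intro h; exact absurd (Finset.mem_univ _) h
      simp only [g1, Finset.sum_add_distrib, ← Finset.mul_sum]
      congr 2
      rw [Finset.sum_eq_single x]
      · simp
      · intro k _ hk; simp [Ne.symm hk]
      · intro h; exact absurd (Finset.mem_univ _) h
    rw [f1, f2]
  rw [h3, Matrix.one_apply]
  have h4 : T.trace = ∑ k, T k k := rfl
  rw [h4]
  linear_combination T y x * cc_sq + (∑ k, T k k) * (if x = y then (1 : ℂ) else 0) * cc_cb

end

theorem eb : S_EB := by
  intro κ _ _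
  refine ⟨fun g => ⟨Hm_herm g, Hm_sum g⟩, EbTEb, ?_⟩
  intro ν _ _ β Y
  -- contraction
  set Z : κ → κ → ℂ := fun s t => ∑ x, ∑ y, β x y * Y (y, t) (x, s) with hZ
  have h1 : ∀ k l, Matrix.trace (Matrix.kronecker β (Eb k l) * Y) = cc * Z k l + cb * Z l k := by
    intro k l
    rw [← contr, Matrix.trace]
    simp only [Matrix.diag_apply, Matrix.mul_apply, Matrix.kronecker, Matrix.kroneckerMap_apply]
    rw [Fintype.sum_prod_type]
    simp only [Fintype.sum_prod_type]
    rw [Finset.sum_comm]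
    refine Finset.sum_congr rfl fun s _ => ?_
    have e1 : ∀ x, ∑ y, ∑ t, β x y * Eb k l s t * Y (y, t) (x, s) =
        ∑ t, ∑ y, β x y * Eb k l s t * Y (y, t) (x, s) := fun x => Finset.sum_comm
    simp only [e1]
    rw [Finset.sum_comm]
    refine Finset.sum_congr rfl fun t _ => ?_
    rw [hZ]
    simp only [Finset.mul_sum]
    refine Finset.sum_congr rfl fun x _ => Finset.sum_congr rfl fun y _ => ?_
    ring
  have h2 : ∀ k l, ‖Matrix.trace (Matrix.kronecker β (Eb k l) * Y)‖ ^ 2 ≤
      ‖Z k l‖ ^ 2 + ‖Z l k‖ ^ 2 := by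
    intro k l
    rw [h1]
    have e1 : ‖cc * Z k l + cb * Z l k‖ ≤ ‖cc‖ * ‖Z k l‖ + ‖cb‖ * ‖Z l k‖ := by
      refine (norm_add_le _ _).trans ?_
      rw [norm_mul, norm_mul]
    have e2 : ‖cc * Z k l + cb * Z l k‖ ^ 2 ≤ (‖cc‖ * ‖Z k l‖ + ‖cb‖ * ‖Z l k‖) ^ 2 :=
      pow_le_pow_left₀ (norm_nonneg _) e1 2
    refine e2.trans ?_
    have e3 := norm_cc
    have e4 := norm_cb
    have e5 : ‖cc‖ * ‖cb‖ ≤ 1 / 2 := by nlinarith [sq_nonneg (‖cc‖ - ‖cb‖)]
    have e6 : (‖cc‖ * ‖Z k l‖ + ‖cb‖ * ‖Z l k‖) ^ 2 = ‖cc‖ ^ 2 * ‖Z k l‖ ^ 2 +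
        ‖cb‖ ^ 2 * ‖Z l k‖ ^ 2 + 2 * (‖cc‖ * ‖cb‖) * (‖Z k l‖ * ‖Z l k‖) := by ring
    rw [e6, e3, e4]
    have e7 : 2 * (‖cc‖ * ‖cb‖) * (‖Z k l‖ * ‖Z l k‖) ≤ ‖Z k l‖ * ‖Z l k‖ := by
      have := mul_nonneg (norm_nonneg (Z k l)) (norm_nonneg (Z l k))
      nlinarith
    nlinarith [sq_nonneg (‖Z k l‖ - ‖Z l k‖)]
  have h3 : ∀ s t, ‖Z s t‖ ^ 2 ≤ hs β * ∑ x, ∑ y, ‖Y (y, t) (x, s)‖ ^ 2 := by
    intro s t
    have e1 : ‖Z s t‖ ≤ ∑ p : ν × ν, ‖β p.1 p.2‖ * ‖Y (p.2, t) (p.1, s)‖ := by
      rw [hZ]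
      simp only
      rw [← Fintype.sum_prod_type' (f := fun x y => β x y * Y (y, t) (x, s))]
      refine (norm_sum_le _ _).trans (le_of_eq ?_)
      refine Finset.sum_congr rfl fun p _ => ?_
      rw [norm_mul]
    have e2 := Finset.sum_mul_sq_le_sq_mul_sq Finset.univ (fun p : ν × ν => ‖β p.1 p.2‖)
      (fun p : ν × ν => ‖Y (p.2, t) (p.1, s)‖)
    have e3 : ∑ p : ν × ν, ‖β p.1 p.2‖ ^ 2 = hs β := by
      unfold hs
      rw [Fintype.sum_prod_type]
    have e4 : ∑ p : ν × ν, ‖Y (p.2, t) (p.1, s)‖ ^ 2 = ∑ x, ∑ y, ‖Y (y, t) (x, s)‖ ^ 2 := by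
      rw [Fintype.sum_prod_type]
    rw [e3, e4] at e2
    exact (pow_le_pow_left₀ (norm_nonneg _) e1 2).trans e2
  calc ∑ k, ∑ l, ‖Matrix.trace (Matrix.kronecker β (Eb k l) * Y)‖ ^ 2
      ≤ ∑ k, ∑ l, (‖Z k l‖ ^ 2 + ‖Z l k‖ ^ 2) :=
        Finset.sum_le_sum fun k _ => Finset.sum_le_sum fun l _ => h2 k l
    _ = 2 * ∑ s, ∑ t, ‖Z s t‖ ^ 2 := by
        simp only [Finset.sum_add_distrib]
        have : ∑ k, ∑ l, ‖Z l k‖ ^ 2 = ∑ k, ∑ l, ‖Z k l‖ ^ 2 := Finset.sum_comm
        rw [this]
        ring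
    _ ≤ 2 * ∑ s, ∑ t, (hs β * ∑ x, ∑ y, ‖Y (y, t) (x, s)‖ ^ 2) := by
        apply mul_le_mul_of_nonneg_left _ (by norm_num)
        exact Finset.sum_le_sum fun s _ => Finset.sum_le_sum fun t _ => h3 s t
    _ = 2 * hs β * hs Y := by
        have e5 : hs Y = ∑ s, ∑ t, ∑ x, ∑ y, ‖Y (y, t) (x, s)‖ ^ 2 := by
          unfold hs
          rw [Finset.sum_comm]
          simp only [Fintype.sum_prod_type]
          rw [Finset.sum_comm]
          refine Finset.sum_congr rfl fun s _ => ?_
          have e6 : ∀ x, ∑ y, ∑ t, ‖Y (y, t) (x, s)‖ ^ 2 = ∑ t, ∑ y, ‖Y (y, t) (x, s)‖ ^ 2 :=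
            fun x => Finset.sum_comm
          simp only [e6]
          rw [Finset.sum_comm]
        rw [e5]
        simp only [← Finset.mul_sum]
        ring

end Pool.Agent.W475.GB
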