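import Pool.Agent.W837.GB.Defs

/-!
# Project GB: the doubly stochastic case (GDS) and the general case by induction (GEN)
-/

set_option autoImplicit false

open MeasureTheory ProbabilityTheory Filter Topology
open scoped NNReal Matrix ComplexOrder

namespace Pool.Agent.W475.GB

open Pool.Agent.W837.GB

theorem gam_prob (ι : Type) [Fintype ι] : IsProbabilityMeasure (gam ι) := by
  unfold gam
  infer_instance

theorem rt_nonneg (N : ℕ) : 0 ≤ rt N := by
  unfold rt
  positivity

/-- union bound -/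
theorem good_of_two {n m m1 m2 : ℕ} {a : Fin n → Matrix (Fin m) (Fin m) ℂ} {L : ℝ}
    {P1 P2 : ℝ → (N : ℕ) → Set (Fin n × Fin N × Fin N → ℝ)}
    (hsub : ∀ ε : ℝ, 0 < ε → ∃ δ : ℝ, 0 < δ ∧ ∀ N : ℕ, 1 ≤ N →
      {g | ε ≤ |DN a N g - L|} ⊆ P1 δ N ∪ P2 δ N)
    (h1 : ∀ δ : ℝ, 0 < δ → ∃ C : ℝ, ∀ N : ℕ, 1 ≤ N →
      (gam (Fin n × Fin N × Fin N)).real (P1 δ N) ≤ C * rt N)
    (h2 : ∀ δ : ℝ, 0 < δ → ∃ C : ℝ, ∀ N : ℕ, 1 ≤ N →
      (gam (Fin n × Fin N × Fin N)).real (P2 δ N) ≤ C * rt N) : Good a L := by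
  intro ε hε
  obtain ⟨δ, hδ, hs⟩ := hsub ε hε
  obtain ⟨C1, hC1⟩ := h1 δ hδ
  obtain ⟨C2, hC2⟩ := h2 δ hδ
  refine ⟨C1 + C2, fun N hN => ?_⟩
  have := gam_prob (Fin n × Fin N × Fin N)
  calc (gam (Fin n × Fin N × Fin N)).real {g | ε ≤ |DN a N g - L|}
      ≤ (gam (Fin n × Fin N × Fin N)).real (P1 δ N ∪ P2 δ N) := measureReal_mono (hs N hN)
    _ ≤ (gam (Fin n × Fin N × Fin N)).real (P1 δ N) +
        (gam (Fin n × Fin N × Fin N)).real (P2 δ N) := measureReal_union_le _ _
    _ ≤ (C1 + C2) * rt N := by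
        have := hC1 N hN
        have := hC2 N hN
        linarith

theorem gds (h1 : S_UP) (h2 : S_BULK) (h3 : S_LOW) : S_GDS := by
  intro n m a hm hDS hInd
  refine good_of_two (m1 := m) (m2 := m)
    (P1 := fun ε N => {g | DN a N g ≤ Real.exp (-(1 / 2)) - ε})
    (P2 := fun ε N => {g | ε ≤ |ld (AN a N g) (dl N) / (m * N) + 1|}) ?_
    (h3 n m a hm hDS hInd) ?_
  · intro ε hε
    refine ⟨min ε (2 * Real.log (1 + ε * Real.exp (1 / 2))), lt_min hε ?_, ?_⟩
    · have : 0 < Real.log (1 + ε * Real.exp (1 / 2)) := by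
        apply Real.log_pos
        have := mul_pos hε (Real.exp_pos (1 / 2))
        linarith
      linarith
    · intro N hN g hg
      simp only [Set.mem_ofPred_eq] at hg
      rcases le_abs.1 hg with h | h
      · right
        simp only [Set.mem_ofPred_eq]
        have hdl : 0 < dl N := by
          unfold dl
          have : (0 : ℝ) < N := by exact_mod_cast hN
          positivity
        have hup := h1 n m N a g (dl N) hm hN hdl
        set x := ld (AN a N g) (dl N) / (m * N) with hx
        have h5 : Real.exp (-(1 / 2)) * (1 + ε * Real.exp (1 / 2)) ≤ Real.exp (x / 2) := by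
          have h6 : Real.exp (-(1 / 2)) * (1 + ε * Real.exp (1 / 2)) =
              Real.exp (-(1 / 2)) + ε := by
            rw [mul_add, mul_one, mul_comm ε, ← mul_assoc, ← Real.exp_add]
            norm_num
          rw [h6]
          linarith
        have hpos : 0 < 1 + ε * Real.exp (1 / 2) := by
          have := mul_pos hε (Real.exp_pos (1 / 2))
          linarith
        have h7 := Real.log_le_log (by positivity) h5
        rw [Real.log_exp, Real.log_mul (Real.exp_pos _).ne' hpos.ne', Real.log_exp] at h7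
        calc min ε (2 * Real.log (1 + ε * Real.exp (1 / 2)))
            ≤ 2 * Real.log (1 + ε * Real.exp (1 / 2)) := min_le_right _ _
          _ ≤ x + 1 := by linarith
          _ ≤ |x + 1| := le_abs_self _
      · left
        simp only [Set.mem_ofPred_eq]
        have := min_le_left ε (2 * Real.log (1 + ε * Real.exp (1 / 2)))
        linarith
  · intro ε hε
    obtain ⟨C, _, hC⟩ := (h2 n m a hm hDS).1 ε hε
    exact ⟨C, hC⟩

theorem DN_nonneg {n m : ℕ} (a : Fin n → Matrix (Fin m) (Fin m) ℂ) (N : ℕ)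
    (g : Fin n × Fin N × Fin N → ℝ) : 0 ≤ DN a N g := by
  unfold DN
  positivity

theorem gen (h1 : S_GDS) (h2 : S_SCALE) (h3 : S_BLOCK) (h4 : S_CAPM) (h5 : S_CAPS) (h6 : S_DNS)
    (h7 : S_DNM) : S_GEN := by
  intro n m
  induction m using Nat.strong_induction_on with
  | _ m ih =>
    intro a hm hNd
    have hm0 : (0 : ℝ) < m := by exact_mod_cast hm
    by_cases hInd : Ind a
    · obtain ⟨hcap, U, V, hU, hV, hDS, hInd', hUV⟩ := h2 n m a hm hInd
      refine ⟨hcap, ?_⟩
      have hgood := h1 n m _ hm hDS hInd'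
      set t : ℝ := ‖U.det‖ * ‖V.det‖ with ht
      have ht0 : 0 < t := mul_pos (norm_pos_iff.2 hU) (norm_pos_iff.2 hV)
      set k : ℝ := t ^ (1 / (m : ℝ)) with hk
      have hk0 : 0 < k := Real.rpow_pos_of_pos ht0 _
      have hcapk : cap a ^ (1 / (2 * (m : ℝ))) = k⁻¹ := by
        have e1 : cap a = (t ^ 2)⁻¹ := by
          have e2 : cap a * t ^ 2 = 1 := by
            rw [ht, mul_pow]
            exact hUV
          field_simp
          exact e2
        rw [e1, hk, ← Real.rpow_natCast, ← Real.rpow_neg ht0.le, ← Real.rpow_mul ht0.le,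
          ← Real.rpow_neg ht0.le]
        congr 1
        push_cast
        field_simp
      rw [hcapk]
      intro ε hε
      obtain ⟨C, hC⟩ := hgood (k * ε) (mul_pos hk0 hε)
      refine ⟨C, fun N hN => ?_⟩
      refine le_trans (le_of_eq ?_) (hC N hN)
      congr 1
      ext g
      simp only [Set.mem_ofPred_eq]
      rw [h6 n m N a U V g hm hN]
      have e3 : (‖U.det‖ * ‖V.det‖) ^ (1 / (m : ℝ)) * DN a N g - Real.exp (-(1 / 2)) =
          k * (DN a N g - k⁻¹ * Real.exp (-1 / 2)) := by
        have e4 : (-(1 / 2) : ℝ) = -1 / 2 := by norm_num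
        rw [mul_sub, ← mul_assoc, mul_inv_cancel₀ hk0.ne', one_mul, e4]
      rw [e3, abs_mul, abs_of_pos hk0]
      exact (mul_le_mul_iff_right₀ hk0).symm
    · obtain ⟨p, q, e, U, V, a', c, a'', hp, hq, hpq, hU, hV, hblk, hNd', hNd''⟩ :=
        h3 n m a hm hNd hInd
      obtain ⟨hc', hg'⟩ := ih p (by omega) a' hp hNd'
      obtain ⟨hc'', hg''⟩ := ih q (by omega) a'' hq hNd''
      have hU0 : U.det ≠ 0 := by
        intro h0; rw [h0, norm_zero] at hU; exact zero_ne_one hU
      have hV0 : V.det ≠ 0 := by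
        intro h0; rw [h0, norm_zero] at hV; exact zero_ne_one hV
      have hcap : cap a = cap a' * cap a'' := by
        have e1 := h4 n p q a' c a'' m e (fun j => U * a j * V) hp hq hblk hc' hc''
        have e2 := h5 n m a U V hU0 hV0
        rw [hU, hV, one_pow, one_mul, one_mul] at e2
        rw [← e2, e1]
      have hDN : ∀ (N : ℕ) (g : Fin n × Fin N × Fin N → ℝ), 1 ≤ N →
          DN a N g = DN a' N g ^ ((p : ℝ) / m) * DN a'' N g ^ ((q : ℝ) / m) := by
        intro N g hN
        have e1 := h7 n p q a' c a'' m e (fun j => U * a j * V) hp hq hblk N g hN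
        have e2 := h6 n m N a U V g hm hN
        rw [hU, hV, one_mul, Real.one_rpow, one_mul] at e2
        rw [← e2, e1]
      refine ⟨by rw [hcap]; exact mul_pos hc' hc'', ?_⟩
      set L' : ℝ := cap a' ^ (1 / (2 * (p : ℝ))) * Real.exp (-1 / 2) with hL'
      set L'' : ℝ := cap a'' ^ (1 / (2 * (q : ℝ))) * Real.exp (-1 / 2) with hL''
      have hp0 : (0 : ℝ) < p := by exact_mod_cast hp
      have hq0 : (0 : ℝ) < q := by exact_mod_cast hq
      have hL : cap a ^ (1 / (2 * (m : ℝ))) * Real.exp (-1 / 2) =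
          L' ^ ((p : ℝ) / m) * L'' ^ ((q : ℝ) / m) := by
        rw [hL', hL'', Real.mul_rpow (by positivity) (by positivity),
          Real.mul_rpow (by positivity) (by positivity), ← Real.rpow_mul hc'.le,
          ← Real.rpow_mul hc''.le, ← Real.exp_mul, ← Real.exp_mul, hcap,
          Real.mul_rpow hc'.le hc''.le]
        have e1 : 1 / (2 * (p : ℝ)) * ((p : ℝ) / m) = 1 / (2 * (m : ℝ)) := by field_simp
        have e2 : 1 / (2 * (q : ℝ)) * ((q : ℝ) / m) = 1 / (2 * (m : ℝ)) := by field_simp
        have e3 : Real.exp (-1 / 2) = Real.exp (-1 / 2 * ((p : ℝ) / m)) *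
            Real.exp (-1 / 2 * ((q : ℝ) / m)) := by
          rw [← Real.exp_add]
          congr 1
          have e4 : (p : ℝ) + q = m := by exact_mod_cast hpq
          field_simp
          linarith
        rw [e1, e2, e3]
        ring
      rw [hL]
      have hcont : Continuous (fun z : ℝ × ℝ => z.1 ^ ((p : ℝ) / m) * z.2 ^ ((q : ℝ) / m)) := by
        apply Continuous.mul
        · exact (Real.continuous_rpow_const (by positivity)).comp continuous_fst
        · exact (Real.continuous_rpow_const (by positivity)).comp continuous_snd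
      refine good_of_two (m1 := m) (m2 := m)
        (P1 := fun δ N => {g | δ ≤ |DN a' N g - L'|})
        (P2 := fun δ N => {g | δ ≤ |DN a'' N g - L''|}) ?_ hg' hg''
      intro ε hε
      obtain ⟨δ, hδ, hδ'⟩ := Metric.continuous_iff.1 hcont (L', L'') ε hε
      refine ⟨δ, hδ, ?_⟩
      intro N hN g hg
      simp only [Set.mem_ofPred_eq, Set.mem_union] at hg ⊢
      by_contra hcon
      push Not at hcon
      have h8 := hδ' (DN a' N g, DN a'' N g) (by
        rw [Prod.dist_eq]
        exact max_lt (by rw [Real.dist_eq]; exact hcon.1) (by rw [Real.dist_eq]; exact hcon.2))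
      rw [Real.dist_eq] at h8
      rw [hDN N g hN] at hg
      exact absurd hg (not_le.2 h8)

end Pool.Agent.W475.GB
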